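import Pool.Agent.helper95.SP.SpecCH
import Pool.Agent.helper64.TP.Conv
import Pool.Agent.helper61.DP.Base

/-!
# Project sp, N3: three black crossing clusters are rare

Sum over ordered pairs of black crossing clusters: given two of them the rest of the annulus is
fresh, so the expected number of pairs on the event `Three` is at most the one-arm probability
times the expected number of pairs.
-/

set_option autoImplicit false

namespace TP

open DP MeasureTheory

/-- The sites of the annulus. -/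
noncomputable def N3_A (x : V) (m n : ℕ) : Finset V := (DP.ann_finite x m n).toFinset

theorem N3_memA {x : V} {m n : ℕ} {v : V} : v ∈ N3_A x m n ↔ v ∈ ann x m n := by
  simp [N3_A]

open Classical in
/-- Black cluster of `u` in the annulus. -/
noncomputable def N3_cl (c : V → Bool) (x : V) (m n : ℕ) (u : V) : Finset V :=
  (N3_A x m n).filter fun v => Conn c true (ann x m n) u v

theorem N3_memcl {c : V → Bool} {x : V} {m n : ℕ} {u v : V} :
    v ∈ N3_cl c x m n u ↔ Conn c true (ann x m n) u v := by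
  classical
  unfold N3_cl
  rw [Finset.mem_filter, N3_memA]
  exact ⟨fun h => h.2, fun h => ⟨h.mem_right, h⟩⟩

/-- Crossing point. -/
def N3_X (c : V → Bool) (x : V) (m n : ℕ) (u : V) : Prop :=
  u ∈ bd x m ∧ ∃ u' ∈ bd x n, Conn c true (ann x m n) u u'

/-- `K` is a black crossing cluster. -/
def N3_CC (c : V → Bool) (x : V) (m n : ℕ) (K : Finset V) : Prop :=
  ∃ u, N3_X c x m n u ∧ K = N3_cl c x m n u

/-- `K` and its neighbours. -/
def N3_nb (x : V) (m n : ℕ) (K : Finset V) : Set V :=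
  {w | w ∈ ann x m n ∧ (w ∈ K ∨ ∃ z ∈ K, Adj z w)}

theorem N3_X_self {c : V → Bool} {x : V} {m n : ℕ} {u : V} (h : N3_X c x m n u) :
    Conn c true (ann x m n) u u := by
  obtain ⟨_, u', _, hc⟩ := h
  exact DP.Con.refl hc.1

theorem N3_cl_eq {c : V → Bool} {x : V} {m n : ℕ} {u v : V}
    (h : Conn c true (ann x m n) u v) : N3_cl c x m n u = N3_cl c x m n v := by
  ext w
  rw [N3_memcl, N3_memcl]
  exact ⟨fun h' => h.symm.trans h', fun h' => h.trans h'⟩

theorem N3_loc1 {c c' : V → Bool} {x : V} {m n : ℕ} {K : Finset V}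
    (h : ∀ w ∈ N3_nb x m n K, c w = c' w) (hK : N3_CC c x m n K) : N3_CC c' x m n K := by
  obtain ⟨u, ⟨hu, u', hu', hc⟩, rfl⟩ := hK
  have key : ∀ v, Conn c true (ann x m n) u v → Conn c' true (ann x m n) u v := by
    intro v hv
    refine Con.mono ?_ (Con.cluster hv)
    intro z hz
    have hz' : Conn c true (ann x m n) u z := hz
    refine ⟨hz'.mem_right, ?_⟩
    rw [← h z ⟨hz'.mem_right, Or.inl (N3_memcl.2 hz')⟩]
    exact hz'.colour_right
  refine ⟨u, ⟨hu, u', hu', key _ hc⟩, ?_⟩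
  ext v
  rw [N3_memcl, N3_memcl]
  refine ⟨key v, fun hv => ?_⟩
  refine Con.induct hv (fun v => Conn c true (ann x m n) u v) (DP.Con.refl hc.1) ?_
  intro a b _ hb hab _ ha
  have hbn : b ∈ N3_nb x m n (N3_cl c x m n u) := ⟨hb.1, Or.inr ⟨a, N3_memcl.2 ha, hab⟩⟩
  exact Con.tail ha hab ⟨hb.1, by rw [h b hbn]; exact hb.2⟩

theorem N3_nb_finite (x : V) (m n : ℕ) (K : Finset V) : (N3_nb x m n K).Finite :=
  (DP.ann_finite x m n).subset fun _ h => h.1

/-- The event that `p.1`, `p.2` are two different black crossing clusters. -/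
def N3_E (x : V) (m n : ℕ) (p : Finset V × Finset V) : Set (V → Bool) :=
  Ev fun c => N3_CC c x m n p.1 ∧ N3_CC c x m n p.2 ∧ p.1 ≠ p.2

theorem N3_E_loc (x : V) (m n : ℕ) (p : Finset V × Finset V) :
    Loc (N3_E x m n p) (N3_nb x m n p.1 ∪ N3_nb x m n p.2) := by
  refine Loc.ev ((N3_nb_finite _ _ _ _).union (N3_nb_finite _ _ _ _)) ?_
  intro c c' h
  constructor
  · rintro ⟨h1, h2, h3⟩
    exact ⟨N3_loc1 (fun w hw => h w (Or.inl hw)) h1, N3_loc1 (fun w hw => h w (Or.inr hw)) h2, h3⟩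
  · rintro ⟨h1, h2, h3⟩
    exact ⟨N3_loc1 (fun w hw => (h w (Or.inl hw)).symm) h1,
      N3_loc1 (fun w hw => (h w (Or.inr hw)).symm) h2, h3⟩

/-- The fresh region. -/
def N3_H (x : V) (m n : ℕ) (p : Finset V × Finset V) : Set V :=
  {w | w ∈ ann x m n ∧ ∀ v ∈ N3_nb x m n p.1 ∪ N3_nb x m n p.2, br v ≠ br w}

/-- A black crossing of the fresh region. -/
def N3_G (x : V) (m n : ℕ) (p : Finset V × Finset V) : Set (V → Bool) :=
  Ev fun c => ∃ u ∈ bd x m, ∃ u' ∈ bd x n, Conn c true (N3_H x m n p) u u'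

theorem N3_H_finite (x : V) (m n : ℕ) (p : Finset V × Finset V) : (N3_H x m n p).Finite :=
  (DP.ann_finite x m n).subset fun _ h => h.1

theorem N3_G_loc (x : V) (m n : ℕ) (p : Finset V × Finset V) :
    Loc (N3_G x m n p) (N3_H x m n p) := by
  refine Loc.ev (N3_H_finite _ _ _ _) ?_
  intro c c' h
  constructor
  · rintro ⟨u, hu, u', hu', hc⟩
    exact ⟨u, hu, u', hu', (Conn.congr h).1 hc⟩
  · rintro ⟨u, hu, u', hu', hc⟩
    exact ⟨u, hu, u', hu', (Conn.congr h).2 hc⟩

theorem N3_avoid {b : V → Bool} {x : V} {m n : ℕ} {K : Finset V} {u : V}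
    (hK : N3_CC (col b) x m n K) (hu : u ∉ K) {z : V}
    (hz : Conn (col b) true (ann x m n) u z) : ∀ v ∈ N3_nb x m n K, br v ≠ br z := by
  intro v hv he
  obtain ⟨k, hk, rfl⟩ := hK
  have hvt : col b v = true := by
    rw [← hz.colour_right]
    show b (br v) = b (br z)
    rw [he]
  have hvK : Conn (col b) true (ann x m n) k v := by
    rcases hv.2 with h | ⟨w, hw, hwv⟩
    · exact N3_memcl.1 h
    · exact Con.tail (N3_memcl.1 hw) hwv ⟨hv.1, hvt⟩
  have hkz : Conn (col b) true (ann x m n) k z := by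
    by_cases hvz : v = z
    · rw [← hvz]; exact hvK
    · exact Con.tail hvK (br_adj he hvz) ⟨hz.mem_right, hz.colour_right⟩
  exact hu (N3_memcl.2 (hkz.trans hz.symm))

theorem N3_third {b : V → Bool} {x : V} {m n : ℕ} {p : Finset V × Finset V}
    (hE : b ∈ N3_E x m n p) (hT : Three (col b) x m n) : b ∈ N3_G x m n p := by
  obtain ⟨h1, h2, _⟩ := hE
  obtain ⟨u, hu, v, hv, w, hw, hxu, hxv, hxw, huv, hvw, huw⟩ := hT
  have sep : ∀ K, N3_CC (col b) x m n K → ∀ s t, s ∈ K → t ∈ K →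
      Conn (col b) true (ann x m n) s t := by
    rintro K ⟨k, _, rfl⟩ s t hs ht
    exact (N3_memcl.1 hs).symm.trans (N3_memcl.1 ht)
  have main : ∀ s, s ∈ bd x m → (∃ s' ∈ bd x n, Conn (col b) true (ann x m n) s s') →
      s ∉ p.1 → s ∉ p.2 → b ∈ N3_G x m n p := by
    rintro s hs ⟨s', hs', hc⟩ h1' h2'
    refine ⟨s, hs, s', hs', ?_⟩
    refine Con.mono ?_ (Con.cluster hc)
    intro z hz
    have hz' : Conn (col b) true (ann x m n) s z := hz
    refine ⟨⟨hz'.mem_right, ?_⟩, hz'.colour_right⟩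
    rintro y (hy | hy)
    · exact N3_avoid h1 h1' hz' y hy
    · exact N3_avoid h2 h2' hz' y hy
  by_cases hu1 : u ∈ p.1
  · have hv1 : v ∉ p.1 := fun h => huv (sep _ h1 _ _ hu1 h)
    have hw1 : w ∉ p.1 := fun h => huw (sep _ h1 _ _ hu1 h)
    by_cases hv2 : v ∈ p.2
    · have hw2 : w ∉ p.2 := fun h => hvw (sep _ h2 _ _ hv2 h)
      exact main w hw hxw hw1 hw2
    · exact main v hv hxv hv1 hv2
  · by_cases hu2 : u ∈ p.2
    · have hv2 : v ∉ p.2 := fun h => huv (sep _ h2 _ _ hu2 h)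
      have hw2 : w ∉ p.2 := fun h => huw (sep _ h2 _ _ hu2 h)
      by_cases hv1 : v ∈ p.1
      · have hw1 : w ∉ p.1 := fun h => hvw (sep _ h1 _ _ hv1 h)
        exact main w hw hxw hw1 hw2
      · exact main v hv hxv hv1 hv2
    · exact main u hu hxu hu1 hu2

theorem N3_three_of {c : V → Bool} {x : V} {m n : ℕ} {K L M : Finset V} (hK : N3_CC c x m n K)
    (hL : N3_CC c x m n L) (hM : N3_CC c x m n M) (h1 : K ≠ L) (h2 : L ≠ M) (h3 : K ≠ M) :
    Three c x m n := by
  obtain ⟨k, hk, rfl⟩ := hK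
  obtain ⟨l, hl, rfl⟩ := hL
  obtain ⟨q, hq, rfl⟩ := hM
  exact ⟨k, hk.1, l, hl.1, q, hq.1, hk.2, hl.2, hq.2, fun h => h1 (N3_cl_eq h),
    fun h => h2 (N3_cl_eq h), fun h => h3 (N3_cl_eq h)⟩

theorem N3_four_of {b : V → Bool} {x : V} {m n : ℕ} {p : Finset V × Finset V}
    (hE : b ∈ N3_E x m n p) : four (col b) x m n := by
  obtain ⟨⟨k, hk, hk'⟩, ⟨l, hl, hl'⟩, h⟩ := hE
  refine ⟨k, hk.1, l, hl.1, hk.2, hl.2, fun h' => h ?_⟩
  rw [hk', hl']
  exact N3_cl_eq h'

/-- Pairs of sets of sites. -/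
noncomputable def N3_P (x : V) (m n : ℕ) : Finset (Finset V × Finset V) :=
  (N3_A x m n).powerset ×ˢ (N3_A x m n).powerset

theorem N3_memP {c : V → Bool} {x : V} {m n : ℕ} {K L : Finset V} (hK : N3_CC c x m n K)
    (hL : N3_CC c x m n L) : (K, L) ∈ N3_P x m n := by
  obtain ⟨k, _, rfl⟩ := hK
  obtain ⟨l, _, rfl⟩ := hL
  unfold N3_P
  rw [Finset.mem_product, Finset.mem_powerset, Finset.mem_powerset]
  refine ⟨fun v hv => N3_memA.2 (N3_memcl.1 hv).mem_right, fun v hv => N3_memA.2 (N3_memcl.1 hv).mem_right⟩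

theorem N3_ex {b : V → Bool} {x : V} {m n : ℕ} (hT : Three (col b) x m n) :
    ∃ p ∈ N3_P x m n, b ∈ N3_E x m n p := by
  obtain ⟨u, hu, v, hv, w, hw, hxu, hxv, hxw, huv, hvw, huw⟩ := hT
  have h1 : N3_CC (col b) x m n (N3_cl (col b) x m n u) := ⟨u, ⟨hu, hxu⟩, rfl⟩
  have h2 : N3_CC (col b) x m n (N3_cl (col b) x m n v) := ⟨v, ⟨hv, hxv⟩, rfl⟩
  refine ⟨(N3_cl (col b) x m n u, N3_cl (col b) x m n v), N3_memP h1 h2, h1, h2, fun h => huv ?_⟩
  have : v ∈ N3_cl (col b) x m n u := by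
    have h' : N3_cl (col b) x m n u = N3_cl (col b) x m n v := h
    rw [h']
    exact N3_memcl.2 (N3_X_self ⟨hv, hxv⟩)
  exact N3_memcl.1 this

open Classical in
theorem N3_count (b : V → Bool) (x : V) (m n : ℕ) (hT : ¬ Three (col b) x m n) :
    ((N3_P x m n).filter fun p => b ∈ N3_E x m n p).card ≤ 2 := by
  by_cases hne : ((N3_P x m n).filter fun p => b ∈ N3_E x m n p).Nonempty
  · obtain ⟨⟨K, L⟩, hp⟩ := hne
    rw [Finset.mem_filter] at hp
    obtain ⟨_, hK, hL, hKL⟩ := hp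
    have hsub : ((N3_P x m n).filter fun p => b ∈ N3_E x m n p) ⊆ {(K, L), (L, K)} := by
      rintro ⟨K', L'⟩ hp'
      rw [Finset.mem_filter] at hp'
      obtain ⟨_, hK', hL', hKL'⟩ := hp'
      have one : ∀ M, N3_CC (col b) x m n M → M = K ∨ M = L := by
        intro M hM
        by_contra hcon
        push Not at hcon
        exact hT (N3_three_of hK hL hM hKL (Ne.symm hcon.2) (Ne.symm hcon.1))
      have e1 := one K' hK'
      have e2 := one L' hL'
      have hne' : K' ≠ L' := hKL'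
      rw [Finset.mem_insert, Finset.mem_singleton, Prod.mk.injEq, Prod.mk.injEq]
      rcases e1 with rfl | rfl <;> rcases e2 with rfl | rfl
      · exact absurd rfl hne'
      · exact Or.inl ⟨rfl, rfl⟩
      · exact Or.inr ⟨rfl, rfl⟩
      · exact absurd rfl hne'
    exact (Finset.card_le_card hsub).trans (Finset.card_insert_le _ _)
  · rw [Finset.not_nonempty_iff_eq_empty] at hne
    rw [hne]
    simp

theorem N3_three_loc (x : V) (m n : ℕ) : Loc (Ev fun c => Three c x m n) (ann x m n) := by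
  refine Loc.ev (DP.ann_finite x m n) ?_
  have key : ∀ c c' : V → Bool, (∀ v ∈ ann x m n, c v = c' v) → Three c x m n → Three c' x m n := by
    rintro c c' h ⟨u, hu, v, hv, w, hw, ⟨u', hu', hxu⟩, ⟨v', hv', hxv⟩, ⟨w', hw', hxw⟩, huv, hvw, huw⟩
    exact ⟨u, hu, v, hv, w, hw, ⟨u', hu', (Conn.congr h).1 hxu⟩, ⟨v', hv', (Conn.congr h).1 hxv⟩,
      ⟨w', hw', (Conn.congr h).1 hxw⟩, fun h' => huv ((Conn.congr h).2 h'),
      fun h' => hvw ((Conn.congr h).2 h'), fun h' => huw ((Conn.congr h).2 h')⟩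
  exact fun c c' h => ⟨key c c' h, key c' c fun v hv => (h v hv).symm⟩

theorem N3_four_loc (x : V) (m n : ℕ) : Loc (Ev fun c => four c x m n) (ann x m n) := by
  refine Loc.ev (DP.ann_finite x m n) ?_
  have key : ∀ c c' : V → Bool, (∀ v ∈ ann x m n, c v = c' v) → four c x m n → four c' x m n := by
    rintro c c' h ⟨u, hu, v, hv, ⟨u', hu', hxu⟩, ⟨v', hv', hxv⟩, huv⟩
    exact ⟨u, hu, v, hv, ⟨u', hu', (Conn.congr h).1 hxu⟩, ⟨v', hv', (Conn.congr h).1 hxv⟩,
      fun h' => huv ((Conn.congr h).2 h')⟩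
  exact fun c c' h => ⟨key c c' h, key c' c fun v hv => (h v hv).symm⟩

theorem N3_indep (hi : Bindep_stmt) (hz : Bzero_stmt) {F G : Set (V → Bool)} {A B : Set V}
    (hF : Loc F A) (hG : Loc G B) (hAB : BDis A B) : Pr (F ∩ G) = Pr F * Pr G := by
  have e := hi (fun _ => 0) F F G G A B hAB hF hF hG hG
  rw [hz (fun _ => 0) (F ∩ G) (F ∩ G) (A ∪ B) (Loc.inter hF hG) (Loc.inter hF hG) (fun _ _ => rfl),
    hz (fun _ => 0) F F A hF hF (fun _ _ => rfl), hz (fun _ => 0) G G B hG hG (fun _ _ => rfl)] at e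
  simpa [Set.inter_self] using e

theorem N3_ineq (hi : Bindep_stmt) (hz : Bzero_stmt) (x : V) (m n : ℕ) (d : ℝ)
    (hd : Pr (Ev fun c => reach c true x m n) ≤ d) (hd' : d ≤ 1 / 2) :
    Pr (Ev fun c => Three c x m n) ≤ 4 * d * Pr (Ev fun c => four c x m n) := by
  classical
  set T : Set (V → Bool) := Ev fun c => Three c x m n with hTdef
  set F : Set (V → Bool) := Ev fun c => four c x m n with hFdef
  have mT : MeasurableSet T := (N3_three_loc x m n).measurableSet
  have mF : MeasurableSet F := (N3_four_loc x m n).measurableSet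
  have mE : ∀ p, MeasurableSet (N3_E x m n p) := fun p => (N3_E_loc x m n p).measurableSet
  have d0 : 0 ≤ d := le_trans (by unfold Pr; exact measureReal_nonneg) hd
  have : IsProbabilityMeasure P1 := by unfold P1; infer_instance
  -- step 1
  have s1 : Pr T ≤ ∑ p ∈ N3_P x m n, Pr (N3_E x m n p ∩ T) := by
    have hsub : T ⊆ ⋃ p ∈ N3_P x m n, (N3_E x m n p ∩ T) := by
      intro b hb
      obtain ⟨p, hp, hE⟩ := N3_ex hb
      exact Set.mem_biUnion hp ⟨hE, hb⟩
    unfold Pr
    exact (measureReal_mono hsub (measure_ne_top _ _)).trans (measureReal_biUnion_finset_le _ _)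
  -- step 2
  have s2 : ∑ p ∈ N3_P x m n, Pr (N3_E x m n p ∩ Tᶜ) ≤ 2 * Pr F := by
    have e1 : ∀ p, Pr (N3_E x m n p ∩ Tᶜ) =
        ∫ b, (N3_E x m n p ∩ Tᶜ).indicator (fun _ => (1 : ℝ)) b ∂P1 := by
      intro p
      rw [integral_indicator_const _ ((mE p).inter mT.compl)]
      simp [Pr]
    have e2 : 2 * Pr F = ∫ b, F.indicator (fun _ => (2 : ℝ)) b ∂P1 := by
      rw [integral_indicator_const _ mF]
      simp [Pr, mul_comm]
    simp_rw [e1]
    rw [e2, ← integral_finsetSum]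
    · refine integral_mono ?_ ?_ ?_
      · refine integrable_finsetSum _ fun p _ => ?_
        exact (integrable_const (1 : ℝ)).indicator ((mE p).inter mT.compl)
      · exact (integrable_const (2 : ℝ)).indicator mF
      · intro b
        show ∑ p ∈ N3_P x m n, (N3_E x m n p ∩ Tᶜ).indicator (fun _ => (1 : ℝ)) b ≤ F.indicator (fun _ => (2 : ℝ)) b
        by_cases hbT : b ∈ T
        · have z : ∑ p ∈ N3_P x m n, (N3_E x m n p ∩ Tᶜ).indicator (fun _ => (1 : ℝ)) b = 0 := by
            refine Finset.sum_eq_zero fun p _ => ?_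
            rw [Set.indicator_of_notMem]
            exact fun h => h.2 hbT
          rw [z]
          exact Set.indicator_nonneg (fun _ _ => by norm_num) _
        · have hsum : ∑ p ∈ N3_P x m n, (N3_E x m n p ∩ Tᶜ).indicator (fun _ => (1 : ℝ)) b =
              (((N3_P x m n).filter fun p => b ∈ N3_E x m n p).card : ℝ) := by
            rw [Finset.card_filter, Nat.cast_sum]
            refine Finset.sum_congr rfl fun p _ => ?_
            by_cases hp : b ∈ N3_E x m n p
            · rw [Set.indicator_of_mem (show b ∈ N3_E x m n p ∩ Tᶜ from ⟨hp, hbT⟩)]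
              simp [hp]
            · rw [Set.indicator_of_notMem (fun h => hp h.1)]
              simp [hp]
          rw [hsum]
          by_cases hne : ((N3_P x m n).filter fun p => b ∈ N3_E x m n p).Nonempty
          · obtain ⟨p, hp⟩ := hne
            have hbF : b ∈ F := N3_four_of (Finset.mem_filter.1 hp).2
            rw [Set.indicator_of_mem hbF]
            exact_mod_cast N3_count b x m n hbT
          · rw [Finset.not_nonempty_iff_eq_empty] at hne
            rw [hne]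
            simp only [Finset.card_empty, Nat.cast_zero]
            exact Set.indicator_nonneg (fun _ _ => by norm_num) _
    · intro p _
      exact (integrable_const (1 : ℝ)).indicator ((mE p).inter mT.compl)
  -- step 3
  have s3 : ∀ p, Pr (N3_E x m n p ∩ T) ≤ d * Pr (N3_E x m n p) := by
    intro p
    have hsub : N3_E x m n p ∩ T ⊆ N3_E x m n p ∩ N3_G x m n p :=
      fun b hb => ⟨hb.1, N3_third hb.1 hb.2⟩
    have hle : Pr (N3_E x m n p ∩ T) ≤ Pr (N3_E x m n p ∩ N3_G x m n p) := by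
      unfold Pr
      exact measureReal_mono hsub (measure_ne_top _ _)
    have hdis : BDis (N3_nb x m n p.1 ∪ N3_nb x m n p.2) (N3_H x m n p) :=
      fun v hv w hw => hw.2 v hv
    rw [N3_indep hi hz (N3_E_loc x m n p) (N3_G_loc x m n p) hdis] at hle
    have hG : Pr (N3_G x m n p) ≤ d := by
      refine le_trans ?_ hd
      unfold Pr
      refine measureReal_mono ?_ (measure_ne_top _ _)
      rintro b ⟨u, hu, u', hu', hc⟩
      exact ⟨u, u', le_of_eq hu, le_of_eq hu'.symm, Conn.mono (Set.subset_univ _) hc⟩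
    have hE0 : 0 ≤ Pr (N3_E x m n p) := by unfold Pr; exact measureReal_nonneg
    calc _ ≤ _ := hle
      _ ≤ Pr (N3_E x m n p) * d := mul_le_mul_of_nonneg_left hG hE0
      _ = _ := mul_comm _ _
  -- conclusion
  have s4 : ∀ p, Pr (N3_E x m n p) = Pr (N3_E x m n p ∩ T) + Pr (N3_E x m n p ∩ Tᶜ) := by
    intro p
    unfold Pr
    rw [← Set.sdiff_eq]
    exact (measureReal_inter_add_sdiff mT (measure_ne_top _ _)).symm
  set S := ∑ p ∈ N3_P x m n, Pr (N3_E x m n p ∩ T) with hS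
  have s5 : S ≤ d * (S + 2 * Pr F) := by
    calc S ≤ ∑ p ∈ N3_P x m n, d * Pr (N3_E x m n p) := Finset.sum_le_sum fun p _ => s3 p
      _ = d * ∑ p ∈ N3_P x m n, Pr (N3_E x m n p) := by rw [Finset.mul_sum]
      _ = d * (S + ∑ p ∈ N3_P x m n, Pr (N3_E x m n p ∩ Tᶜ)) := by
          rw [hS, ← Finset.sum_add_distrib]
          congr 1
          exact Finset.sum_congr rfl fun p _ => s4 p
      _ ≤ _ := mul_le_mul_of_nonneg_left (by linarith) d0
  have hF0 : 0 ≤ Pr F := by unfold Pr; exact measureReal_nonneg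
  have hS0 : 0 ≤ S := Finset.sum_nonneg fun p _ => by unfold Pr; exact measureReal_nonneg
  have : S ≤ 4 * d * Pr F := by nlinarith
  exact s1.trans this

theorem N3_three_four (x : V) (m n : ℕ) :
    (Ev fun c => Three c x m n) ⊆ (Ev fun c => four c x m n) := by
  rintro b ⟨u, hu, v, hv, _, _, hxu, hxv, _, huv, _, _⟩
  exact ⟨u, hu, v, hv, hxu, hxv, huv⟩

theorem N3I (hi : Bindep_stmt) (hz : Bzero_stmt) (h2 : C2_stmt) : K.N3I_stmt := by
  obtain ⟨C, hC, α, hα, h⟩ := h2
  refine ⟨4 * C, α, by positivity, hα, 0, ?_⟩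
  intro x a b _ _ hab
  have h1 : Pr (Ev fun c => reach c true x (2 ^ a) (2 ^ b)) ≤
      C * (2 : ℝ) ^ (-(α * ((b : ℝ) - a))) := by
    refine (h true x (2 ^ a) (2 ^ b) Nat.one_le_two_pow
      (Nat.pow_le_pow_right (by norm_num) hab.le)).trans (le_of_eq ?_)
    congr 1
    push_cast
    rw [← Real.rpow_natCast 2 a, ← Real.rpow_natCast 2 b, ← Real.rpow_sub (by norm_num),
      ← Real.rpow_mul (by norm_num)]
    congr 1
    ring
  set d := C * (2 : ℝ) ^ (-(α * ((b : ℝ) - a))) with hd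
  have hF0 : 0 ≤ Pr (F4 x a b) := by unfold Pr; exact measureReal_nonneg
  by_cases hd' : d ≤ 1 / 2
  · have := N3_ineq hi hz x (2 ^ a) (2 ^ b) d h1 hd'
    calc _ ≤ _ := this
      _ = _ := by rw [hd]; unfold F4; ring
  · push Not at hd'
    have hle : Pr (Ev fun c => Three c x (2 ^ a) (2 ^ b)) ≤ Pr (F4 x a b) := by
      have : IsProbabilityMeasure P1 := by unfold P1; infer_instance
      unfold Pr
      exact measureReal_mono (N3_three_four x _ _) (measure_ne_top _ _)
    calc _ ≤ _ := hle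
      _ ≤ 4 * d * Pr (F4 x a b) := by nlinarith
      _ = _ := by rw [hd]; ring

end TP
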