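import Pool.Agent.helper95.SP.SpecCH
import Pool.Agent.helper61.DP.SpecA

/-!
# Project sp, piece GA: duality of gates (modules GD1, GD2, GD3, DUAL) and N3

Deterministic statements on arbitrary colourings of the fine grid. `fl c` is the flipped colouring,
`Conn (fl c) true R u v ↔ Conn c false R u v`. The planar statements of project dp may be
hypotheses: `DP.FO_stmt` `DP.FI_stmt` `DP.OF_stmt` `DP.IF_stmt` `DP.QI_stmt` `DP.TC_stmt` (API,
SpecF), `DP.SI_stmt` `DP.PR_stmt` `DP.PO_stmt` `DP.AC_stmt` `DP.CX_stmt` (helper61/DP/SpecA).
-/

namespace TP

open DP MeasureTheory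

/-- The colour flip preserves the number of crossing clusters (at least two).
`four`: `TC_stmt`. `Three c → Three (fl c)` (the converse with `fl (fl c) = c`): let `u₁ u₂ u₃ ∈ bd x m` be
black crossing points of three different clusters, `q ∈ bd x m` a white crossing point (`FI`, from
`four`). For every `i` let `a i` be the LAST point of the cluster of `u i` on the counterclockwise arc
from `u i` to `q` (largest position) and apply the first part of `QI` to `(a i, q)`: the edge `{a, b}` has
`a` in the cluster, hence `a = a i`, hence `nxt x m (a i) (b i)` and `b i` is a white crossing point. If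
`b i`, `b j` (`i ≠ j`) were connected (white): `a i, b i, a j, b j` alternate (`a i`, `b i` are neighbours,
`a j`, `b j` are neighbours, `a i ≠ a j`, and `b i ≠ b j`), contradiction to `IF` with colour white. -/
def GD1_stmt : Prop :=
  ∀ (c : V → Bool) (x : V) (m n : ℕ), Even (x.1 + x.2) → 1 ≤ m → m < n →
    (four (fl c) x m n ↔ four c x m n) ∧ (Three (fl c) x m n ↔ Three c x m n) ∧
      (Gate (fl c) x m n ↔ Gate c x m n)

/-- Not both bits. `FO`: alternating crossing points `u₁ u₂ u₃ u₄` of `bd x n` (black, white, black,
white), `u₁`, `u₃` in different black, `u₂`, `u₄` in different white clusters (`OF`). By `¬ Three`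
(for `c` and `fl c`, `GD1`) the two points of `hb c` are in the clusters of `u₁` and `u₃`, so `u₁`, `u₃` are
connected by black in `box x n`; in the same way `u₂`, `u₄` by white: contradiction to `SI`. -/
def GD2_stmt : Prop :=
  ∀ (c : V → Bool) (x : V) (m n : ℕ), Even (x.1 + x.2) → 1 ≤ m → m < n → Gate c x m n →
    hb c x m n → ¬ hb (fl c) x m n

/-- Boundary of a connected set in a box: `C ⊆ box x n` connected, `a a' ∈ C` on the circle, `b` next
to `a` counterclockwise, `b'` next to `a'` clockwise, no point of `C` on the arc from `b` to `b'`.
Then `b` and `b'` are connected in the set of neighbours of `C`. Proof: let `M` be the component of `b`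
in `nbd (box x n) C` and suppose `b' ∉ M`. `f u v = 1` if one of `u, v` is in `C` and the other one in
`M`, `f u v = 0` otherwise. `f` is closed on the triangles of the box, which is a rectangle, so
`f u v = φ u + φ v` (`PR`). `φ a = φ a'` (path in `C`), `φ b = φ a + 1`, `φ b' = φ b` (along the arc),
`φ a' = φ b'`: contradiction. -/
def GD0_stmt : Prop :=
  ∀ (x : V) (n : ℕ) (C : Set V) (a a' b b' : V), 1 ≤ n → C ⊆ box x n → Con C a a' →
    nxt x n a b → nxt x n b' a' → (∀ w, onArc x n b b' w → w ∉ C) →
      Con (nbd (box x n) C) b b'

/-- At least one bit. `FO`: alternating crossing points `u₁ u₂ u₃ u₄` of `bd x n`. Let `C` be the black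
cluster of `u₁` in `box x n`; `u₃ ∉ C` because of `¬ hb c` (`OF`). Let `a` be the last point of `C` on the
counterclockwise arc from `u₁` to `u₃` and `b` the next point, `a'` the last point of `C` in clockwise
direction from `u₁` to `u₃` and `b'` the point after it (clockwise). By `GD0` `b`, `b'` are connected by white
in `box x n`. `u₁, b, u₃, b'` alternate. The white path from `b` to `b'` meets `bd x m`: otherwise it is
in `{v | m < sd x v ≤ n}` and is disjoint from the connected set (black path from `u₁` to `bd x m`) ∪
`box x m` ∪ (black path from `bd x m` to `u₃`), contradiction to `SI`. So `b` and `b'` are white crossing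
points, not connected in the annulus by `OF`. -/
def GD3_stmt : Prop :=
  ∀ (c : V → Bool) (x : V) (m n : ℕ), Even (x.1 + x.2) → 1 ≤ m → m < n → four c x m n →
    ¬ hb c x m n → hb (fl c) x m n

/-- DUAL: from GD1, GD2, GD3. -/
def DUAL_stmt : Prop :=
  ∀ (c : V → Bool) (x : V) (m n : ℕ), Even (x.1 + x.2) → 1 ≤ m → m < n → Gate c x m n →
    (hb c x m n ↔ ¬ hb (fl c) x m n)

end TP
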