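import Pool.Agent.helper33.SP.SpecC2S

/-! Module sp:VA1 (helper98): flips of coins and averages. -/

namespace TP

open DP MeasureTheory

theorem VA1_flp_flp (B : Set V) (b : V → Bool) : flp B (flp B b) = b := by
  funext v
  by_cases h : v ∈ B <;> simp [flp, h]

/-- The law of the coins is invariant under flips. -/
theorem VA1_map (B : Set V) : MeasurePreserving (flp B) P1 P1 := by
  classical
  have hf : ∀ v : V, Measurable (fun k : Bool => if v ∈ B then !k else k) :=
    fun v => measurable_of_countable _
  refine ⟨?_, ?_⟩
  · refine measurable_pi_iff.2 fun v => ?_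
    exact (hf v).comp (measurable_pi_apply v)
  · have h := Measure.infinitePi_map_pi
      (μ := fun _ : V => (PMF.uniformOfFintype Bool).toMeasure)
      (f := fun (v : V) (k : Bool) => if v ∈ B then !k else k) hf
    have e : (fun (b : V → Bool) (v : V) => if v ∈ B then !(b v) else b v) = flp B := by
      funext b v
      simp [flp]
    have hm : ∀ v : V, Measure.map (fun k : Bool => if v ∈ B then !k else k)
        (PMF.uniformOfFintype Bool).toMeasure = (PMF.uniformOfFintype Bool).toMeasure := by
      intro v
      by_cases hv : v ∈ B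
      · simp only [hv, if_true]
        have hm2 : Measurable (fun k : Bool => !k) := measurable_of_countable _
        rw [PMF.toMeasure_map _ _ hm2]
        congr 1
        ext k
        rw [PMF.map_apply]
        simp only [PMF.uniformOfFintype_apply]
        rw [tsum_bool]
        cases k <;> simp
      · simp only [hv, if_false]
        exact Measure.map_id
    rw [P1, ← e]
    refine h.trans ?_
    simp only [hm]

/-- Flips as a measurable equivalence. -/
noncomputable def VA1_equiv (B : Set V) : (V → Bool) ≃ᵐ (V → Bool) :=
  MeasurableEquiv.ofInvolutive (flp B) (VA1_flp_flp B) (VA1_map B).measurable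

theorem VA1_integral (B : Set V) (g : (V → Bool) → ℝ) :
    ∫ b, g (flp B b) ∂P1 = ∫ b, g b ∂P1 := by
  have h := MeasurePreserving.integral_comp' (f := VA1_equiv B) (VA1_map B) g
  exact h

theorem VA1_mx (B U : Set V) (b b' : V → Bool) :
    flp B (mx U b b') = mx U (flp B b) (flp B b') := by
  funext v
  by_cases h : v ∈ B <;> by_cases h' : v ∈ U <;> simp [flp, mx, h, h']

/-- **VA1.** -/
theorem VA1 : VA1_stmt := by
  refine ⟨?_, ?_, ?_, ?_, ?_, ?_⟩
  · intro B F _
    have h := (VA1_map B).map_eq
    have h2 : (Measure.map (VA1_equiv B) P1) F = P1 (VA1_equiv B ⁻¹' F) :=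
      MeasurableEquiv.map_apply _ _
    have h3 : (Measure.map (VA1_equiv B) P1) = P1 := h
    rw [h3] at h2
    rw [Pr, Pr, measureReal_def, measureReal_def, h2]
    rfl
  · intro B U g b _
    unfold av
    simp only [VA1_mx]
    exact VA1_integral B fun b' => g (mx U (flp B b) b')
  · intro B U g b hBU
    unfold av
    have e : ∀ b' : V → Bool, mx U (flp B b) b' = mx U b b' := by
      intro b'
      funext v
      by_cases h' : v ∈ U
      · simp [mx, h']
      · have h : v ∉ B := fun hv => h' (hBU hv)
        simp [mx, h', flp, h]
    simp only [e]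
  · exact VA1_flp_flp
  · intro B B' b hd
    funext v
    by_cases h : v ∈ B
    · have h' : v ∉ B' := Set.disjoint_left.1 hd h
      simp [flp, h, h']
    · by_cases h' : v ∈ B' <;> simp [flp, h, h']
  · rintro B g ⟨Λ, hΛ⟩
    refine ⟨Λ, fun b b' hb => hΛ _ _ fun v hv => ?_⟩
    simp only [flp, hb v hv]

end TP
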