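import Pool.Agent.helper33.SP.SpecC2S

/-! Module sp:VA5 (helper98): flips, gates, four arms through a block, conditional probabilities. -/

namespace TP

open DP MeasureTheory

theorem VA5_four {c c' : V → Bool} {x : V} {m n : ℕ} (h : ∀ w ∈ ann x m n, c w = c' w) :
    four c x m n ↔ four c' x m n := by
  have e : ∀ u v, Conn c true (ann x m n) u v ↔ Conn c' true (ann x m n) u v :=
    fun u v => Conn.congr h
  simp only [four, twoCl, e]

theorem VA5_Three {c c' : V → Bool} {x : V} {m n : ℕ} (h : ∀ w ∈ ann x m n, c w = c' w) :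
    Three c x m n ↔ Three c' x m n := by
  have e : ∀ u v, Conn c true (ann x m n) u v ↔ Conn c' true (ann x m n) u v :=
    fun u v => Conn.congr h
  simp only [Three, e]

theorem VA5_Gate {c c' : V → Bool} {x : V} {m n : ℕ} (h : ∀ w ∈ ann x m n, c w = c' w) :
    Gate c x m n ↔ Gate c' x m n :=
  and_congr (VA5_four h) (not_congr (VA5_Three h))

theorem VA5_sd_br (z w : V) : sd z (br w) ≤ sd z w + 1 ∧ sd z w ≤ sd z (br w) + 1 := by
  have h1 := br_fst w
  have h2 := br_snd w
  unfold sd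
  omega

theorem VA5_flp_mem {B : Set V} {b : V → Bool} {w : V} (h : br w ∈ B) :
    col (flp B b) w = fl (col b) w := by
  simp [col, flp, fl, h]

theorem VA5_flp_not {B : Set V} {b : V → Bool} {w : V} (h : br w ∉ B) :
    col (flp B b) w = col b w := by
  simp [col, flp, h]

theorem VA5_pow {p g : ℕ} (hg : g + 4 ≤ p) (hg1 : 1 ≤ g) :
    2 ^ (p - g - 1) = 2 * 2 ^ (p - g - 2) ∧ 4 ≤ 2 ^ (p - g - 2) ∧ 2 ^ p = 2 * 2 ^ (p - 1) ∧
      2 ^ (p - g - 1) < 2 ^ (p - 1) ∧ 8 ≤ 2 ^ (p - 1) := by
  refine ⟨?_, ?_, ?_, ?_, ?_⟩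
  · rw [← pow_succ']
    congr 1
    omega
  · calc 4 = 2 ^ 2 := by norm_num
      _ ≤ 2 ^ (p - g - 2) := Nat.pow_le_pow_right (by norm_num) (by omega)
  · rw [← pow_succ']
    congr 1
    omega
  · exact Nat.pow_lt_pow_right (by norm_num) (by omega)
  · calc 8 = 2 ^ 3 := by norm_num
      _ ≤ 2 ^ (p - 1) := Nat.pow_le_pow_right (by norm_num) (by omega)

/-- Finitely many coins around `z`. -/
noncomputable def VA5_fin (z : V) (n : ℕ) : Finset V :=
  (Finset.Icc (z.1 - n) (z.1 + n)) ×ˢ (Finset.Icc (z.2 - n) (z.2 + n))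

theorem VA5_mem_fin {z w : V} {n : ℕ} (h : sd z w ≤ n) : w ∈ VA5_fin z n := by
  unfold sd at h
  simp only [VA5_fin, Finset.mem_product, Finset.mem_Icc]
  omega

/-- **VA5.** -/
theorem VA5 (h1 : GD1_stmt) : VA5_stmt := by
  classical
  intro z p h g hz hgp hg hh1
  have hze : Even (z.1 + z.2) := Int.even_iff.2 hz
  obtain ⟨q1, q2, q3, q4, q5⟩ := VA5_pow hgp hg
  have q6 : 2 ^ p ≤ 2 ^ (p + h) := Nat.pow_le_pow_right (by norm_num) (by omega)
  have q7 : 2 ^ (p + h + 1) = 2 * 2 ^ (p + h) := by rw [pow_succ']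
  have q8 : 2 ^ (p + h + 1) < 2 ^ (p + h + g + 1) := Nat.pow_lt_pow_right (by norm_num) (by omega)
  have q9 : 2 ^ (p + h + g + 2) = 2 * 2 ^ (p + h + g + 1) := by
    rw [← pow_succ']
  have q0 : 1 ≤ 2 ^ (p - g - 1) := Nat.one_le_two_pow
  have q10 : 2 ^ (p - g - 1) < 2 ^ (p + h + g + 1) :=
    Nat.pow_lt_pow_right (by norm_num) (by omega)
  have gIn := fun c : V → Bool => (h1 c z (2 ^ (p - g - 1)) (2 ^ (p - 1)) hze q0 q4).2.2
  have gOut := fun c : V → Bool =>
    (h1 c z (2 ^ (p + h + 1)) (2 ^ (p + h + g + 1)) hze Nat.one_le_two_pow q8).2.2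
  have gThr := fun c : V → Bool => (h1 c z (2 ^ (p - g - 1)) (2 ^ (p + h + g + 1)) hze q0 q10).1
  -- dependence on finitely many coins
  have hfin : ∀ b b' : V → Bool, (∀ v ∈ VA5_fin z (2 ^ (p + h + g + 1) + 1), b v = b' v) →
      (b ∈ gts z p h g ↔ b' ∈ gts z p h g) ∧ (b ∈ thr z p h g ↔ b' ∈ thr z p h g) := by
    intro b b' hb
    have hc : ∀ w : V, sd z w ≤ 2 ^ (p + h + g + 1) → col b w = col b' w := by
      intro w hw
      have h2 := VA5_sd_br z w
      exact hb _ (VA5_mem_fin (by omega))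
    refine ⟨and_congr (VA5_Gate fun w hw => hc w ?_) (VA5_Gate fun w hw => hc w ?_),
      VA5_four fun w hw => hc w ?_⟩
    · have h3 := hw.2
      omega
    · exact hw.2
    · exact hw.2
  refine ⟨?_, ?_, ?_, ?_, ?_, ?_⟩
  · intro b
    refine and_congr ?_ ?_
    · refine (VA5_Gate (c' := fl (col b)) fun w hw => VA5_flp_mem ?_).trans (gIn _)
      have h2 := VA5_sd_br z w
      have h3 := hw.2
      show sd z (br w) ≤ 2 ^ p
      omega
    · refine VA5_Gate fun w hw => VA5_flp_not ?_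
      have h2 := VA5_sd_br z w
      have h3 := hw.1
      intro h4
      have h5 : sd z (br w) ≤ 2 ^ p := h4
      omega
  · intro b b' hb
    refine and_congr (VA5_Gate fun w hw => hb _ ?_) (VA5_Gate fun w hw => hb _ ?_)
    · have h2 := VA5_sd_br z w
      have h3 := hw.2
      intro h4
      have h5 : 2 ^ p < sd z (br w) := h4.1
      omega
    · have h2 := VA5_sd_br z w
      have h3 := hw.1
      intro h4
      have h5 : sd z (br w) < 2 ^ (p + h) := h4.2
      omega
  · intro B b hB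
    have key : ∀ w : V, 2 ^ (p - g - 1) ≤ sd z w → sd z w ≤ 2 ^ (p + h + g + 1) →
        col (flp B b) w = fl (col b) w := by
      intro w hw1 hw2
      have h2 := VA5_sd_br z w
      exact VA5_flp_mem (hB _ (by omega) (by omega))
    refine ⟨and_congr ?_ ?_, ?_⟩
    · refine (VA5_Gate (c' := fl (col b)) fun w hw => key w hw.1 ?_).trans (gIn _)
      have h3 := hw.2
      omega
    · refine (VA5_Gate (c' := fl (col b)) fun w hw => key w ?_ hw.2).trans (gOut _)
      have h3 := hw.1
      omega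
    · exact (VA5_four (c' := fl (col b)) fun w hw => key w hw.1 hw.2).trans (gThr _)
  · intro E b b' hb
    unfold cpr
    have e : ∀ d : V → Bool, mx (Ag z p h) b d = mx (Ag z p h) b' d := by
      intro d
      funext v
      by_cases hv : v ∈ Ag z p h
      · simp [mx, hv]
      · simp [mx, hv, hb v hv]
    simp only [e]
  · intro i
    refine ⟨?_, ?_⟩
    · refine ⟨((Finset.Icc (1 : ℤ) (2 * 2 ^ i)) ×ˢ (Finset.Icc (0 : ℤ) (hh (2 ^ i)))).image br,
        fun b b' hb => ?_⟩
      have hc : ∀ w ∈ rect 1 (2 * 2 ^ i) 0 (hh (2 ^ i)), col b w = col b' w := by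
        intro w hw
        refine hb _ ?_
        simp only [Finset.coe_image, Set.mem_image, Finset.coe_product, Finset.coe_Icc,
          Set.mem_prod, Set.mem_Icc]
        exact ⟨w, ⟨⟨hw.1, hw.2.1⟩, hw.2.2.1, hw.2.2.2⟩, rfl⟩
      have hk : ∀ k : Bool, pmc i (ins (col b) z (2 ^ (p + h + 1)) k) =
          pmc i (ins (col b') z (2 ^ (p + h + 1)) k) := by
        intro k
        have e : ∀ u v, Conn (ins (col b) z (2 ^ (p + h + 1)) k) true
            (rect 1 (2 * 2 ^ i) 0 (hh (2 ^ i))) u v ↔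
            Conn (ins (col b') z (2 ^ (p + h + 1)) k) true
              (rect 1 (2 * 2 ^ i) 0 (hh (2 ^ i))) u v := by
          intro u v
          refine Conn.congr fun w hw => ?_
          simp only [ins, hc w hw]
        have hiff : hcross (ins (col b) z (2 ^ (p + h + 1)) k) true 1 (2 * 2 ^ i) 0 (hh (2 ^ i)) ↔
            hcross (ins (col b') z (2 ^ (p + h + 1)) k) true 1 (2 * 2 ^ i) 0 (hh (2 ^ i)) := by
          simp only [hcross, e]
        unfold pmc
        by_cases h3 : hcross (ins (col b) z (2 ^ (p + h + 1)) k) true 1 (2 * 2 ^ i) 0 (hh (2 ^ i))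
        · rw [if_pos h3, if_pos (hiff.1 h3)]
        · rw [if_neg h3, if_neg fun h4 => h3 (hiff.2 h4)]
      simp only [gK, hk]
    · intro b b' hb
      have hk : ∀ k : Bool, ins (col b) z (2 ^ (p + h + 1)) k =
          ins (col b') z (2 ^ (p + h + 1)) k := by
        intro k
        funext w
        unfold ins
        split_ifs with hw
        · rfl
        · have h2 := VA5_sd_br z w
          exact hb _ (by omega)
      simp only [gK, hk]
  · refine ⟨VA5_fin z (2 ^ (p + h + g + 1) + 1), fun b b' hb => ?_⟩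
    have hb1 : ∀ v ∈ VA5_fin z (2 ^ (p + h + g + 1) + 1), b v = b' v := fun v hv => hb v hv
    have e1 : (gts z p h g ∩ thr z p h g).indicator (1 : (V → Bool) → ℝ) b =
        (gts z p h g ∩ thr z p h g).indicator 1 b' := by
      have h3 := hfin b b' hb1
      by_cases hm : b ∈ gts z p h g ∩ thr z p h g
      · have hm' : b' ∈ gts z p h g ∩ thr z p h g := ⟨h3.1.1 hm.1, h3.2.1 hm.2⟩
        rw [Set.indicator_of_mem hm, Set.indicator_of_mem hm']
        rfl
      · rw [Set.indicator_of_notMem hm, Set.indicator_of_notMem]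
        exact fun h4 => hm ⟨h3.1.2 h4.1, h3.2.2 h4.2⟩
    have e2 : cpr (Ag z p h) (thr z p h g) (flp (fI z p) b) =
        cpr (Ag z p h) (thr z p h g) (flp (fI z p) b') := by
      unfold cpr
      congr 1
      ext d
      refine (hfin _ _ fun v hv => ?_).2
      by_cases hv1 : v ∈ Ag z p h
      · simp [mx, hv1]
      · simp [mx, hv1, flp, hb1 v hv]
    simp only [wpar, e1, e2]

end TP
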