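import Pool.Agent.helper3.SP.SpecPP
import Pool.Agent.helper98.SP.N3

/-! Module sp:PP36 (helper98): the lower bound `PL_stmt` from six standard arms and the core. -/

set_option autoImplicit false

namespace TP

open DP MeasureTheory

/-- `PP34_stmt` with a threshold independent of `S`. -/
def PP36_L_stmt : Prop :=
  ∃ k₁ : ℕ, ∀ S : ℕ, 16 ≤ S → ∃ c : ℝ, 0 < c ∧ ∀ (x : V) (m₀ n₂ ℓ₁ ℓ ℓ₃ : ℕ), k₁ ≤ ℓ₁ →
    ParC m₀ (2 * n₂) ℓ₁ ℓ S ℓ₃ →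
      c * Pr (Ev fun c => (Gate c x (2 * m₀) (16 * ℓ₁) ∧ Gate c x (512 * ℓ₃) n₂) ∧
          ArB c x m₀ (2 * n₂) ℓ₁ ℓ S ℓ₃ ∧ ArW c x m₀ (2 * n₂) ℓ₁ ℓ S ℓ₃) ≤
        Pr (Ev fun c => (Gate c x (2 * m₀) (16 * ℓ₁) ∧ Gate c x (512 * ℓ₃) n₂) ∧
          (ArB c x m₀ (2 * n₂) ℓ₁ ℓ S ℓ₃ ∧ ArW c x m₀ (2 * n₂) ℓ₁ ℓ S ℓ₃) ∧
            Lps c true (Lblk x ℓ₁ ℓ S ℓ₃) ∧ Lps c false (Lwht x ℓ₁ ℓ S ℓ₃))

theorem PP36_nonneg (F : Set (V → Bool)) : 0 ≤ Pr F := by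
  unfold Pr
  exact measureReal_nonneg

theorem PP36_mono {F G : Set (V → Bool)} (h : F ⊆ G) : Pr F ≤ Pr G := by
  have : IsProbabilityMeasure P1 := by unfold P1; infer_instance
  unfold Pr
  exact measureReal_mono h (measure_ne_top _ _)

/-- Four arms in a large annulus give four arms in two disjoint smaller ones. -/
theorem PP36_two (hAM : DP.AM_stmt) (hi : Bindep_stmt) (hz : Bzero_stmt) (h7 : UI7_stmt) (x : V)
    (hx : (x.1 + x.2) % 2 = 0) (lo a b a' b' hi' : ℕ) (h1 : lo ≤ a) (h2 : a ≤ b) (h3 : b + 2 ≤ a')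
    (h4 : a' ≤ b') (h5 : b' ≤ hi') : Pr (F4 x lo hi') ≤ a4 a b * a4 a' b' := by
  have e1 : a4 a b = Pr (F4 x a b) := ((h7.2 x (2 ^ a) (2 ^ b) hx).1).symm
  have e2 : a4 a' b' = Pr (F4 x a' b') := ((h7.2 x (2 ^ a') (2 ^ b') hx).1).symm
  have l1 : Loc (F4 x a b) (ann x (2 ^ a) (2 ^ b)) := N3_four_loc x _ _
  have l2 : Loc (F4 x a' b') (ann x (2 ^ a') (2 ^ b')) := N3_four_loc x _ _
  have pw : ∀ {i j : ℕ}, i ≤ j → 2 ^ i ≤ 2 ^ j := fun h => Nat.pow_le_pow_right (by norm_num) h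
  have hdis : BDis (ann x (2 ^ a) (2 ^ b)) (ann x (2 ^ a') (2 ^ b')) := by
    refine BDis.of_sd fun v hv w hw => ?_
    have g1 := hv.2
    have g2 := hw.1
    have g3 : 2 ^ (b + 2) ≤ 2 ^ a' := pw h3
    have g4 : 2 ^ (b + 2) = 4 * 2 ^ b := by rw [pow_add]; ring
    have g5 : 1 ≤ 2 ^ b := Nat.one_le_two_pow
    unfold sd at *
    omega
  rw [e1, e2, ← N3_indep hi hz l1 l2 hdis]
  refine PP36_mono fun c hc => ⟨?_, ?_⟩
  · have hc' : four (col c) x (2 ^ lo) (2 ^ hi') := hc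
    have := hAM (col c) 4 x (2 ^ lo) (2 ^ a) (2 ^ b) (2 ^ hi') (Or.inr rfl) (pw h1) (pw h2)
      (pw (by omega)) (by simpa [ar] using hc')
    show four (col c) x (2 ^ a) (2 ^ b)
    simpa [ar] using this
  · have hc' : four (col c) x (2 ^ lo) (2 ^ hi') := hc
    have := hAM (col c) 4 x (2 ^ lo) (2 ^ a') (2 ^ b') (2 ^ hi') (Or.inr rfl) (pw (by omega))
      (pw h4) (pw h5) (by simpa [ar] using hc')
    show four (col c) x (2 ^ a') (2 ^ b')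
    simpa [ar] using this

/-- **PP36.** -/
theorem PP36 (hAM : DP.AM_stmt) (hi : Bindep_stmt) (hz : Bzero_stmt) (h7 : UI7_stmt)
    (hG : K.GSB_stmt) (hQ : K.QAA_stmt) (h33 : PP33_stmt) (h34 : PP36_L_stmt)
    (h35 : PP35_stmt) : PP36_stmt := by
  intro hT hC
  obtain ⟨cG, cG0, g₀, i₁, hG⟩ := hG
  obtain ⟨-, a6n, -, CQ, kQ, CQ1, hQ, -⟩ := hQ
  obtain ⟨CT, CT0, kT, hT⟩ := hT
  obtain ⟨cC, kC, cC0, hC⟩ := hC
  obtain ⟨k₁, h34⟩ := h34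
  set g := max g₀ 1 with hg
  have g1 : 1 ≤ g := le_max_right _ _
  have g2 : g₀ ≤ g := le_max_left _ _
  have CQ0 : 0 < CQ := by linarith
  refine ⟨g, g + 20 + i₁ + kQ + kT + kC + k₁, g1, fun s hs => ?_⟩
  obtain ⟨cs, cs0, h34⟩ := h34 (2 ^ s) (by
    calc 16 = 2 ^ 4 := by norm_num
      _ ≤ 2 ^ s := Nat.pow_le_pow_right (by norm_num) (by omega))
  -- lower bound of the probability of a gate block
  set cg : ℝ := cG * (CQ ^ (g + 1))⁻¹ with hcg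
  have cg0 : 0 < cg := by positivity
  refine ⟨cs * (cg * cC * CT⁻¹ * CT⁻¹ * CT⁻¹ * cg), by positivity, fun p m x hp hm hx => ?_⟩
  have hxe : Even (x.1 + x.2) := Int.even_iff.2 hx
  obtain ⟨q, hq⟩ : ∃ q, q = p + m + 3 * s + m := ⟨_, rfl⟩
  have gate : ∀ a b : ℕ, i₁ ≤ a → kQ ≤ a → b = a + g →
      cg ≤ Pr ((Ev fun c => Gate c x (2 ^ a) (2 ^ b)) ∩ B4 x (a - 1) (b + 1)) := by
    intro a b h1 h2 h3
    subst h3
    have e1 : a4 a (a + g) = Pr (F4 x a (a + g)) := ((h7.2 x (2 ^ a) (2 ^ (a + g)) hx).1).symm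
    have h4 := hG x a (a + g) hxe h1 (by omega)
    refine le_trans ?_ h4
    rw [← e1, hcg]
    refine mul_le_mul_of_nonneg_left ?_ cG0.le
    have h5 := hQ a g h2
    have h6 : 0 < CQ ^ (g + 1) := by positivity
    rw [inv_le_iff_one_le_mul₀ h6]
    exact h5
  -- the parameters
  have pw : ∀ i j : ℕ, (2 : ℕ) ^ i * 2 ^ j = 2 ^ (i + j) := fun i j => (pow_add 2 i j).symm
  have r1 : 2 * 2 ^ (p - g - 5) = 2 ^ (p - g - 4) := by
    rw [← pow_succ']; congr 1; omega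
  have r2 : 16 * 2 ^ (p - 8) = 2 ^ (p - 4) := by
    rw [show (16 : ℕ) = 2 ^ 4 by norm_num, pw]; congr 1; omega
  have r3 : 512 * 2 ^ (q - 5) = 2 ^ (q + 4) := by
    rw [show (512 : ℕ) = 2 ^ 9 by norm_num, pw]; congr 1; omega
  have r4 : 512 * 2 ^ (p - 8) = 2 ^ (p + 1) := by
    rw [show (512 : ℕ) = 2 ^ 9 by norm_num, pw]; congr 1; omega
  have r5 : 16 * 2 ^ (q - 5) = 2 ^ (q - 1) := by
    rw [show (16 : ℕ) = 2 ^ 4 by norm_num, pw]; congr 1; omega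
  have r6 : 2 * 2 ^ (q + 4 + g) = 2 ^ (q + 4 + g + 1) := by
    rw [← pow_succ']
  have r7 : 32 * 2 ^ (p - 8) = 2 ^ (p - 3) := by
    rw [show (32 : ℕ) = 2 ^ 5 by norm_num, pw]; congr 1; omega
  have r8 : 256 * 2 ^ (p - 8) = 2 ^ p := by
    rw [show (256 : ℕ) = 2 ^ 8 by norm_num, pw]; congr 1; omega
  have r9 : 32 * 2 ^ (p + m - 5) = 2 ^ (p + m) := by
    rw [show (32 : ℕ) = 2 ^ 5 by norm_num, pw]; congr 1; omega
  have r10 : 32 * ((2 ^ s) ^ 3 * 2 ^ (p + m - 5)) = 2 ^ (p + m + 3 * s) := by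
    rw [show (32 : ℕ) = 2 ^ 5 by norm_num, ← pow_mul, pw, pw]; congr 1; omega
  have r11 : 32 * 2 ^ (q - 5) = 2 ^ q := by
    rw [show (32 : ℕ) = 2 ^ 5 by norm_num, pw]; congr 1; omega
  have r12 : 256 * 2 ^ (q - 5) = 2 ^ (q + 3) := by
    rw [show (256 : ℕ) = 2 ^ 8 by norm_num, pw]; congr 1; omega
  have hy : yc x (2 ^ (p + m - 5)) (2 ^ s) = yy true x (2 ^ (p + m + s)) := by
    have e : 32 * 2 ^ s * 2 ^ (p + m - 5) = 2 ^ (p + m + s) := by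
      rw [show (32 : ℕ) = 2 ^ 5 by norm_num, pw, pw]; congr 1; omega
    unfold yc yy
    rw [if_pos rfl, ← e]
    push_cast
    rfl
  have hPar : ParC (2 ^ (p - g - 5)) (2 * 2 ^ (q + 4 + g)) (2 ^ (p - 8)) (2 ^ (p + m - 5)) (2 ^ s)
      (2 ^ (q - 5)) := by
    have pl : ∀ {i j : ℕ}, i ≤ j → 2 ^ i ≤ 2 ^ j := fun h => Nat.pow_le_pow_right (by norm_num) h
    refine ⟨?_, ?_, ?_, ?_, ?_, ?_⟩
    · rw [show (64 : ℕ) = 2 ^ 6 by norm_num]; exact pl (by omega)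
    · rw [show (4 : ℕ) = 2 ^ 2 by norm_num, pw]; exact pl (by omega)
    · rw [show (64 : ℕ) = 2 ^ 6 by norm_num, pw]; exact pl (by omega)
    · rw [show (16 : ℕ) = 2 ^ 4 by norm_num]; exact pl (by omega)
    · rw [show (64 : ℕ) = 2 ^ 6 by norm_num, ← pow_mul, pw, pw]; exact pl (by omega)
    · rw [show (2048 : ℕ) = 2 ^ 11 by norm_num, pw, r6]; exact pl (by omega)
  have hk₁ : k₁ ≤ 2 ^ (p - 8) := by
    have h1 : p - 8 < 2 ^ (p - 8) := Nat.lt_two_pow_self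
    omega
  have key := h34 x (2 ^ (p - g - 5)) (2 ^ (q + 4 + g)) (2 ^ (p - 8)) (2 ^ (p + m - 5))
    (2 ^ (q - 5)) hk₁ hPar
  rw [h35 x (2 ^ (p - g - 5)) (2 ^ (q + 4 + g)) (2 ^ (p - 8)) (2 ^ (p + m - 5)) (2 ^ s)
    (2 ^ (q - 5)) hPar] at key
  have hye : ((yy true x (2 ^ (p + m + s))).1 + (yy true x (2 ^ (p + m + s))).2) % 2 = 0 := by
    unfold yy
    rw [if_pos rfl]
    have e : (2 : ℤ) ^ (p + m + s) = 2 * 2 ^ (p + m + s - 1) := by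
      rw [← pow_succ']; congr 1; omega
    push_cast
    rw [e]
    omega
  -- the six factors
  have f1 : cg ≤ Pr (Ev fun c => Gate c x (2 * 2 ^ (p - g - 5)) (16 * 2 ^ (p - 8)) ∧
      Std c 4 true x (32 * 2 ^ (p - 8)) (Dmark 4 x (2 ^ (p - g - 5)))) := by
    rw [r1, r2, r7]
    have h := gate (p - g - 4) (p - 4) (by omega) (by omega) (by omega)
    rw [show p - g - 4 - 1 = p - g - 5 by omega, show p - 4 + 1 = p - 3 by omega] at h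
    exact h
  have f6 : cg ≤ Pr (Ev fun c => Gate c x (512 * 2 ^ (q - 5)) (2 ^ (q + 4 + g)) ∧
      Std c 4 true x (2 * 2 ^ (q + 4 + g)) (Dmark 4 x (256 * 2 ^ (q - 5)))) := by
    rw [r3, r6, r12]
    have h := gate (q + 4) (q + 4 + g) (by omega) (by omega) (by omega)
    rw [show q + 4 - 1 = q + 3 by omega] at h
    exact h
  have f2 : cC ≤ Pr (Ev fun c => CoB c (yc x (2 ^ (p + m - 5)) (2 ^ s)) (32 * 2 ^ (p - 8)) ∧
      CoW c (yc x (2 ^ (p + m - 5)) (2 ^ s)) (32 * 2 ^ (p - 8))) := by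
    rw [r7, hy]
    exact hC _ _ hye (by omega)
  have th : ∀ (z : V) (a b : ℕ), (z.1 + z.2) % 2 = 0 → kT ≤ a + 1 → a + 1 + kT ≤ b - 1 →
      1 ≤ b → CT⁻¹ * a6 (a + 1) (b - 1) ≤
        Pr (Ev fun c => SxB c z (2 ^ a) (2 ^ b) ∧ SxW c z (2 ^ a) (2 ^ b)) := by
    intro z a b hz1 h1 h2 h3
    have h := hT z (a + 1) (b - 1) hz1 h1 h2
    rw [show a + 1 - 1 = a by omega, show b - 1 + 1 = b by omega] at h
    rw [inv_mul_le_iff₀ CT0]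
    exact h
  have f3 : CT⁻¹ * a6 (p + 1) (p + m - 1) ≤
      Pr (Ev fun c => SxB c x (256 * 2 ^ (p - 8)) (32 * 2 ^ (p + m - 5)) ∧
        SxW c x (256 * 2 ^ (p - 8)) (32 * 2 ^ (p + m - 5))) := by
    rw [r8, r9]
    exact th x p (p + m) hx (by omega) (by omega) (by omega)
  have f4 : CT⁻¹ * a6 (p + 1) (p + m - 1) ≤
      Pr (Ev fun c => SxB c (yc x (2 ^ (p + m - 5)) (2 ^ s)) (256 * 2 ^ (p - 8))
          (32 * 2 ^ (p + m - 5)) ∧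
        SxW c (yc x (2 ^ (p + m - 5)) (2 ^ s)) (256 * 2 ^ (p - 8)) (32 * 2 ^ (p + m - 5))) := by
    rw [r8, r9, hy]
    exact th _ p (p + m) hye (by omega) (by omega) (by omega)
  have f5 : CT⁻¹ * a6 (p + m + 3 * s + 1) (p + m + 3 * s + m - 1) ≤
      Pr (Ev fun c => SxB c x (32 * ((2 ^ s) ^ 3 * 2 ^ (p + m - 5))) (32 * 2 ^ (q - 5)) ∧
        SxW c x (32 * ((2 ^ s) ^ 3 * 2 ^ (p + m - 5))) (32 * 2 ^ (q - 5))) := by
    rw [r10, r11, hq]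
    exact th x (p + m + 3 * s) (p + m + 3 * s + m) hx (by omega) (by omega) (by omega)
  have a1 := a6n (p + 1) (p + m - 1)
  have a2 := a6n (p + m + 3 * s + 1) (p + m + 3 * s + m - 1)
  have CTi : 0 < CT⁻¹ := by positivity
  have prod := mul_le_mul (mul_le_mul (mul_le_mul (mul_le_mul (mul_le_mul f1 f2 cC0.le
    (PP36_nonneg _)) f3 (by positivity) (mul_nonneg (PP36_nonneg _) (PP36_nonneg _))) f4
    (by positivity) (mul_nonneg (mul_nonneg (PP36_nonneg _) (PP36_nonneg _)) (PP36_nonneg _))) f5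
    (by positivity) (mul_nonneg (mul_nonneg (mul_nonneg (PP36_nonneg _) (PP36_nonneg _))
      (PP36_nonneg _)) (PP36_nonneg _))) f6 cg0.le (mul_nonneg (mul_nonneg (mul_nonneg (mul_nonneg
        (PP36_nonneg _) (PP36_nonneg _)) (PP36_nonneg _)) (PP36_nonneg _)) (PP36_nonneg _))
  have low := (mul_le_mul_of_nonneg_left prod cs0.le).trans key
  -- the event
  have hsub : (Ev fun c => (Gate c x (2 * 2 ^ (p - g - 5)) (16 * 2 ^ (p - 8)) ∧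
        Gate c x (512 * 2 ^ (q - 5)) (2 ^ (q + 4 + g))) ∧
      (ArB c x (2 ^ (p - g - 5)) (2 * 2 ^ (q + 4 + g)) (2 ^ (p - 8)) (2 ^ (p + m - 5)) (2 ^ s)
          (2 ^ (q - 5)) ∧
        ArW c x (2 ^ (p - g - 5)) (2 * 2 ^ (q + 4 + g)) (2 ^ (p - 8)) (2 ^ (p + m - 5)) (2 ^ s)
          (2 ^ (q - 5))) ∧
      Lps c true (Lblk x (2 ^ (p - 8)) (2 ^ (p + m - 5)) (2 ^ s) (2 ^ (q - 5))) ∧
      Lps c false (Lwht x (2 ^ (p - 8)) (2 ^ (p + m - 5)) (2 ^ s) (2 ^ (q - 5)))) ⊆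
      YPe g x p m s ∩ B4 x (p - g - 4 - 1) (p + m + 3 * s + m + 4 + g + 1) := by
    rintro b ⟨⟨e1, e2⟩, ⟨e3, e4⟩, e5, e6⟩
    have h := h33 (col b) x (2 ^ (p - g - 5)) (2 ^ (q + 4 + g)) (2 ^ (p - 8)) (2 ^ (p + m - 5))
      (2 ^ s) (2 ^ (q - 5)) hPar hxe e1 e2 e3 e4 e5 e6
    rw [hy, r1, r2, r3, r4, r5, r6] at h
    rw [hq] at h
    refine ⟨h.1, ?_⟩
    show Std (col b) 4 true x (2 ^ (p + m + 3 * s + m + 4 + g + 1)) (Dmark 4 x (2 ^ (p - g - 4 - 1)))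
    rw [show p - g - 4 - 1 = p - g - 5 by omega]
    exact h.2
  refine le_trans ?_ (low.trans (PP36_mono hsub))
  -- the ratio
  have hF := PP36_two hAM hi hz h7 x hx (p - g - 4) p (p + m) (p + m + 3 * s) (p + m + 3 * s + m)
    (p + m + 3 * s + m + 4 + g) (by omega) (by omega) (by omega) (by omega) (by omega)
  have hF0 := PP36_nonneg (F4 x (p - g - 4) (p + m + 3 * s + m + 4 + g))
  have hrat : rat p m s * Pr (F4 x (p - g - 4) (p + m + 3 * s + m + 4 + g)) ≤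
      a6 (p + 1) (p + m - 1) ^ 2 * a6 (p + m + 3 * s + 1) (p + m + 3 * s + m - 1) := by
    unfold rat
    set D := a4 p (p + m) * a4 (p + m + 3 * s) (p + m + 3 * s + m) with hD
    have hN : 0 ≤ a6 (p + 1) (p + m - 1) ^ 2 * a6 (p + m + 3 * s + 1) (p + m + 3 * s + m - 1) :=
      mul_nonneg (sq_nonneg _) a2
    have hD0 : 0 ≤ D := le_trans hF0 hF
    rcases hD0.eq_or_lt with h | h
    · rw [← h, div_zero, zero_mul]
      exact hN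
    · rw [div_mul_eq_mul_div, div_le_iff₀ h]
      exact mul_le_mul_of_nonneg_left hF hN
  have hc0 : 0 ≤ cs * (cg * cC * CT⁻¹ * CT⁻¹ * CT⁻¹ * cg) := by positivity
  calc cs * (cg * cC * CT⁻¹ * CT⁻¹ * CT⁻¹ * cg) * rat p m s *
        Pr (F4 x (p - g - 4) (p + m + 3 * s + m + 4 + g))
      = cs * (cg * cC * CT⁻¹ * CT⁻¹ * CT⁻¹ * cg) * (rat p m s *
        Pr (F4 x (p - g - 4) (p + m + 3 * s + m + 4 + g))) := by ring
    _ ≤ cs * (cg * cC * CT⁻¹ * CT⁻¹ * CT⁻¹ * cg) *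
        (a6 (p + 1) (p + m - 1) ^ 2 * a6 (p + m + 3 * s + 1) (p + m + 3 * s + m - 1)) :=
        mul_le_mul_of_nonneg_left hrat hc0
    _ = _ := by ring

end TP
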