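import Pool.Agent.helper2.SP.SpecTA

/-!
# Module sp:TA16 (helper98): more than three white crossing clusters are rare

Sum over the sets of three white crossing clusters: given three of them the rest of the annulus is
fresh, so `E[C(N,3); N ≥ 4] ≤ d E[C(N,3)]`.
-/

set_option autoImplicit false

namespace TP.TA

open DP MeasureTheory

theorem TA16_congr {c c' : V → Bool} {x : V} {m n : ℕ} (h : ∀ w ∈ ann x m n, c w = c' w)
    (K : Set V) : WC c x m n K ↔ WC c' x m n K := by
  have e : ∀ u v, Conn c false (ann x m n) u v ↔ Conn c' false (ann x m n) u v :=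
    fun u v => Conn.congr h
  simp only [WC, e]

open Classical in
/-- The number of crossing clusters as the number of finite sets. -/
theorem TA16_nW (c : V → Bool) (x : V) (m n : ℕ) : nW c x m n =
    ((N3_A x m n).powerset.filter fun K : Finset V => WC c x m n (K : Set V)).card := by
  unfold nW
  rw [← Set.ncard_coe_finset, ← Set.ncard_coe_finset,
    ← Set.ncard_image_of_injective _ Finset.coe_injective]
  congr 1
  ext K
  simp only [Finset.coe_filter, Set.mem_ofPred_eq, Set.mem_image, Finset.bind_def, Finset.mem_sup,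
    Finset.pure_def, Finset.mem_singleton]
  constructor
  · rintro ⟨⟨L, hL, rfl⟩, hK⟩
    exact ⟨L, ⟨hL, hK⟩, rfl⟩
  · rintro ⟨L, ⟨hL, hK⟩, rfl⟩
    exact ⟨⟨L, hL, rfl⟩, hK⟩

theorem TA16_nW_congr {c c' : V → Bool} {x : V} {m n : ℕ} (h : ∀ w ∈ ann x m n, c w = c' w) :
    nW c x m n = nW c' x m n := by
  classical
  rw [TA16_nW, TA16_nW]
  congr 1
  exact Finset.filter_congr fun K _ => TA16_congr h _

theorem TA16_loc1 {c c' : V → Bool} {x : V} {m n : ℕ} {K : Finset V}
    (h : ∀ w ∈ N3_nb x m n K, c w = c' w) (hK : WC c x m n (K : Set V)) :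
    WC c' x m n (K : Set V) := by
  obtain ⟨u, hu, ⟨u', hu', hc⟩, hKe⟩ := hK
  have mem : ∀ v, v ∈ K ↔ Conn c false (ann x m n) u v := by
    intro v
    rw [← Finset.mem_coe, hKe]
    exact Iff.rfl
  have key : ∀ v, Conn c false (ann x m n) u v → Conn c' false (ann x m n) u v := by
    intro v hv
    refine Con.mono ?_ (Con.cluster hv)
    intro z hz
    have hz' : Conn c false (ann x m n) u z := hz
    refine ⟨hz'.mem_right, ?_⟩
    rw [← h z ⟨hz'.mem_right, Or.inl ((mem z).2 hz')⟩]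
    exact hz'.colour_right
  refine ⟨u, hu, ⟨u', hu', key _ hc⟩, ?_⟩
  rw [hKe]
  ext v
  refine ⟨fun hv => key v hv, fun hv => ?_⟩
  refine Con.induct (show Conn c' false (ann x m n) u v from hv)
    (fun v => Conn c false (ann x m n) u v) (DP.Con.refl hc.1) ?_
  intro a b _ hb hab _ ha
  have hbn : b ∈ N3_nb x m n K := ⟨hb.1, Or.inr ⟨a, (mem a).2 ha, hab⟩⟩
  exact Con.tail ha hab ⟨hb.1, by rw [h b hbn]; exact hb.2⟩

/-- The elements of `q` are white crossing clusters. -/
def TA16_E (x : V) (m n : ℕ) (q : Finset (Finset V)) : Set (V → Bool) :=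
  Ev fun c => ∀ K ∈ q, WC c x m n (K : Set V)

/-- The explored region. -/
def TA16_R (x : V) (m n : ℕ) (q : Finset (Finset V)) : Set V := {w | ∃ K ∈ q, w ∈ N3_nb x m n K}

theorem TA16_R_finite (x : V) (m n : ℕ) (q : Finset (Finset V)) : (TA16_R x m n q).Finite :=
  (DP.ann_finite x m n).subset fun _ ⟨_, _, h⟩ => h.1

theorem TA16_E_loc (x : V) (m n : ℕ) (q : Finset (Finset V)) :
    Loc (TA16_E x m n q) (TA16_R x m n q) := by
  refine Loc.ev (TA16_R_finite _ _ _ _) ?_
  intro c c' h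
  constructor
  · exact fun hE K hK => TA16_loc1 (fun w hw => h w ⟨K, hK, hw⟩) (hE K hK)
  · exact fun hE K hK => TA16_loc1 (fun w hw => (h w ⟨K, hK, hw⟩).symm) (hE K hK)

/-- The fresh region. -/
def TA16_H (x : V) (m n : ℕ) (q : Finset (Finset V)) : Set V :=
  {w | w ∈ ann x m n ∧ ∀ v ∈ TA16_R x m n q, br v ≠ br w}

/-- A white crossing of the fresh region. -/
def TA16_G (x : V) (m n : ℕ) (q : Finset (Finset V)) : Set (V → Bool) :=
  Ev fun c => ∃ u ∈ bd x m, ∃ u' ∈ bd x n, Conn c false (TA16_H x m n q) u u'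

theorem TA16_G_loc (x : V) (m n : ℕ) (q : Finset (Finset V)) :
    Loc (TA16_G x m n q) (TA16_H x m n q) := by
  refine Loc.ev ((DP.ann_finite x m n).subset fun _ h => h.1) ?_
  intro c c' h
  constructor
  · rintro ⟨u, hu, u', hu', hc⟩
    exact ⟨u, hu, u', hu', (Conn.congr h).1 hc⟩
  · rintro ⟨u, hu, u', hu', hc⟩
    exact ⟨u, hu, u', hu', (Conn.congr h).2 hc⟩

theorem TA16_avoid {b : V → Bool} {x : V} {m n : ℕ} {K : Finset V} {u : V}
    (hK : WC (col b) x m n (K : Set V)) (hu : u ∉ K) {z : V}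
    (hz : Conn (col b) false (ann x m n) u z) : ∀ v ∈ N3_nb x m n K, br v ≠ br z := by
  intro v hv he
  obtain ⟨k, hk, _, hKe⟩ := hK
  have mem : ∀ v, v ∈ K ↔ Conn (col b) false (ann x m n) k v := by
    intro v
    rw [← Finset.mem_coe, hKe]
    exact Iff.rfl
  have hvt : col b v = false := by
    rw [← hz.colour_right]
    show b (br v) = b (br z)
    rw [he]
  have hvK : Conn (col b) false (ann x m n) k v := by
    rcases hv.2 with h | ⟨w, hw, hwv⟩
    · exact (mem v).1 h
    · exact Con.tail ((mem w).1 hw) hwv ⟨hv.1, hvt⟩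
  have hkz : Conn (col b) false (ann x m n) k z := by
    by_cases hvz : v = z
    · rw [← hvz]; exact hvK
    · exact Con.tail hvK (br_adj he hvz) ⟨hz.mem_right, hz.colour_right⟩
  exact hu ((mem u).2 (hkz.trans hz.symm))

theorem TA16_fourth {b : V → Bool} {x : V} {m n : ℕ} {q : Finset (Finset V)} (hq : q.card = 3)
    (hE : b ∈ TA16_E x m n q) (hT : 4 ≤ nW (col b) x m n) : b ∈ TA16_G x m n q := by
  classical
  rw [TA16_nW] at hT
  obtain ⟨L, hL, hLq⟩ := Finset.exists_mem_notMem_of_card_lt_card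
    (lt_of_lt_of_le (by omega : q.card < 4) hT)
  rw [Finset.mem_filter] at hL
  obtain ⟨_, u, hu, ⟨u', hu', hc⟩, hLe⟩ := hL
  have memL : ∀ v, v ∈ L ↔ Conn (col b) false (ann x m n) u v := by
    intro v
    rw [← Finset.mem_coe, hLe]
    exact Iff.rfl
  refine ⟨u, hu, u', hu', ?_⟩
  refine Con.mono ?_ (Con.cluster hc)
  intro z hz
  have hz' : Conn (col b) false (ann x m n) u z := hz
  refine ⟨⟨hz'.mem_right, ?_⟩, hz'.colour_right⟩
  rintro y ⟨K, hK, hy⟩
  refine TA16_avoid (hE K hK) (fun huK => hLq ?_) hz' y hy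
  -- `u ∈ K`, so `K = L`
  obtain ⟨k, _, _, hKe⟩ := hE K hK
  have memK : ∀ v, v ∈ K ↔ Conn (col b) false (ann x m n) k v := by
    intro v
    rw [← Finset.mem_coe, hKe]
    exact Iff.rfl
  have hku : Conn (col b) false (ann x m n) k u := (memK u).1 huK
  have hKL : K = L := by
    ext v
    rw [memK, memL]
    exact ⟨fun h => hku.symm.trans h, fun h => hku.trans h⟩
  rw [← hKL]
  exact hK

/-- Comparison of two sums of probabilities by counting. -/
theorem TA16_sum_le {ι κ : Type} (I : Finset ι) (F : ι → Set (V → Bool)) (J : Finset κ)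
    (G : κ → Set (V → Bool)) (mF : ∀ i, MeasurableSet (F i)) (mG : ∀ j, MeasurableSet (G j))
    (h : ∀ b, {i | i ∈ I ∧ b ∈ F i}.ncard ≤ {j | j ∈ J ∧ b ∈ G j}.ncard) :
    ∑ i ∈ I, Pr (F i) ≤ ∑ j ∈ J, Pr (G j) := by
  classical
  have : IsProbabilityMeasure P1 := by unfold P1; infer_instance
  have e : ∀ (τ : Type) (I : Finset τ) (F : τ → Set (V → Bool)), (∀ i, MeasurableSet (F i)) →
      Integrable (fun b => ({i | i ∈ I ∧ b ∈ F i}.ncard : ℝ)) P1 ∧
      ∑ i ∈ I, Pr (F i) = ∫ b, ({i | i ∈ I ∧ b ∈ F i}.ncard : ℝ) ∂P1 := by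
    intro τ I F mF
    have hsum : (fun b : V → Bool => ({i | i ∈ I ∧ b ∈ F i}.ncard : ℝ)) =
        fun b => ∑ i ∈ I, (F i).indicator (fun _ => (1 : ℝ)) b := by
      funext b
      have e0 : {i | i ∈ I ∧ b ∈ F i} = ((I.filter fun i => b ∈ F i : Finset τ) : Set τ) := by
        ext i
        simp
      rw [e0, Set.ncard_coe_finset, Finset.card_filter, Nat.cast_sum]
      refine Finset.sum_congr rfl fun i _ => ?_
      by_cases hi : b ∈ F i
      · rw [Set.indicator_of_mem hi]
        simp [hi]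
      · rw [Set.indicator_of_notMem hi]
        simp [hi]
    rw [hsum]
    refine ⟨integrable_finsetSum _ fun i _ => (integrable_const (1 : ℝ)).indicator (mF i), ?_⟩
    rw [integral_finsetSum _ fun i _ => (integrable_const (1 : ℝ)).indicator (mF i)]
    refine Finset.sum_congr rfl fun i _ => ?_
    rw [integral_indicator_const _ (mF i)]
    simp [Pr]
  obtain ⟨i1, e1⟩ := e ι I F mF
  obtain ⟨i2, e2⟩ := e κ J G mG
  rw [e1, e2]
  exact integral_mono i1 i2 fun b => Nat.cast_le.2 (h b)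

theorem TA16_nW_loc (x : V) (m n k : ℕ) : Loc (Ev fun c => k ≤ nW c x m n) (ann x m n) := by
  refine Loc.ev (DP.ann_finite x m n) ?_
  intro c c' h
  rw [TA16_nW_congr h]

/-- **TA16.** -/
theorem TA16 (hi : Bindep_stmt) (hz : Bzero_stmt) : TA16_stmt := by
  classical
  intro x m n d hd hd'
  have : IsProbabilityMeasure P1 := by unfold P1; infer_instance
  set T : Set (V → Bool) := Ev fun c => 4 ≤ nW c x m n with hTdef
  set F : Set (V → Bool) := Ev fun c => 3 ≤ nW c x m n with hFdef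
  have mT : MeasurableSet T := (TA16_nW_loc x m n 4).measurableSet
  have mF : MeasurableSet F := (TA16_nW_loc x m n 3).measurableSet
  have mE : ∀ q, MeasurableSet (TA16_E x m n q) := fun q => (TA16_E_loc x m n q).measurableSet
  have d0 : 0 ≤ d := le_trans (by unfold Pr; exact measureReal_nonneg) hd
  set Q := Finset.powersetCard 3 (N3_A x m n).powerset with hQ
  -- the sets of three clusters
  have hcard : ∀ b : V → Bool, {q | q ∈ Q ∧ b ∈ TA16_E x m n q}.ncard =
      (nW (col b) x m n).choose 3 := by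
    intro b
    have e : {q | q ∈ Q ∧ b ∈ TA16_E x m n q} = ((Finset.powersetCard 3
        ((N3_A x m n).powerset.filter fun K : Finset V => WC (col b) x m n (K : Set V)) :
          Finset (Finset (Finset V))) : Set (Finset (Finset V))) := by
      ext q
      rw [Finset.mem_coe, Finset.mem_powersetCard]
      constructor
      · rintro ⟨h1, h3⟩
        rw [hQ, Finset.mem_powersetCard] at h1
        exact ⟨fun K hK => Finset.mem_filter.2 ⟨h1.1 hK, h3 K hK⟩, h1.2⟩
      · rintro ⟨h1, h2⟩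
        refine ⟨?_, fun K hK => (Finset.mem_filter.1 (h1 hK)).2⟩
        rw [hQ, Finset.mem_powersetCard]
        exact ⟨fun K hK => (Finset.mem_filter.1 (h1 hK)).1, h2⟩
    rw [e, Set.ncard_coe_finset, Finset.card_powersetCard, TA16_nW]
  have hcard1 : ∀ b : V → Bool, {K | K ∈ (N3_A x m n).powerset ∧ WC (col b) x m n (K : Set V)}.ncard =
      nW (col b) x m n := by
    intro b
    rw [TA16_nW, ← Set.ncard_coe_finset]
    congr 1
    ext K
    simp
  -- step 1
  have s1 : ∑ K ∈ (N3_A x m n).powerset, Pr (Ev fun c => WC c x m n K ∧ 4 ≤ nW c x m n) ≤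
      ∑ q ∈ Q, Pr (TA16_E x m n q ∩ T) := by
    refine TA16_sum_le _ _ _ _ (fun K => ?_) (fun q => (mE q).inter mT) fun b => ?_
    · refine (Loc.ev (DP.ann_finite x m n) ?_).measurableSet
      intro c c' h
      rw [TA16_congr h, TA16_nW_congr h]
    · by_cases hb : 4 ≤ nW (col b) x m n
      · have e1 : {K : Finset V | K ∈ (N3_A x m n).powerset ∧
            b ∈ (Ev fun c => WC c x m n (K : Set V) ∧ 4 ≤ nW c x m n)} =
            {K | K ∈ (N3_A x m n).powerset ∧ WC (col b) x m n (K : Set V)} := by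
          ext K
          exact ⟨fun h => ⟨h.1, h.2.1⟩, fun h => ⟨h.1, h.2, hb⟩⟩
        have e2 : {q | q ∈ Q ∧ b ∈ TA16_E x m n q ∩ T} = {q | q ∈ Q ∧ b ∈ TA16_E x m n q} := by
          ext q
          exact ⟨fun h => ⟨h.1, h.2.1⟩, fun h => ⟨h.1, h.2, hb⟩⟩
        rw [e1, e2, hcard, hcard1]
        obtain ⟨k, hk⟩ : ∃ k, nW (col b) x m n = k + 4 := ⟨nW (col b) x m n - 4, by omega⟩
        rw [hk]
        clear * -
        induction k with
        | zero => decide
        | succ k ih =>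
          have h1 : (k + 1 + 4).choose 3 = (k + 4).choose 2 + (k + 4).choose 3 := by
            rw [show k + 1 + 4 = (k + 4) + 1 by ring, Nat.choose_succ_succ' (k + 4) 2]
          have h2 : 1 ≤ (k + 4).choose 2 := Nat.choose_pos (by omega)
          omega
      · have e1 : {K : Finset V | K ∈ (N3_A x m n).powerset ∧
            b ∈ (Ev fun c => WC c x m n (K : Set V) ∧ 4 ≤ nW c x m n)} = ∅ :=
          Set.eq_empty_iff_forall_notMem.2 fun K h => hb h.2.2
        rw [e1, Set.ncard_empty]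
        exact Nat.zero_le _
  -- step 2
  have s2 : ∑ q ∈ Q, Pr (TA16_E x m n q ∩ Tᶜ) ≤ Pr F := by
    have h := TA16_sum_le Q (fun q => TA16_E x m n q ∩ Tᶜ) ({()} : Finset Unit) (fun _ => F)
      (fun q => (mE q).inter mT.compl) (fun _ => mF) fun b => ?_
    · simpa using h
    · by_cases hb : b ∈ T
      · have e1 : {q | q ∈ Q ∧ b ∈ TA16_E x m n q ∩ Tᶜ} = ∅ :=
          Set.eq_empty_iff_forall_notMem.2 fun q h => h.2.2 hb
        rw [e1, Set.ncard_empty]
        exact Nat.zero_le _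
      · have hb' : nW (col b) x m n < 4 := not_le.1 hb
        have e2 : {q | q ∈ Q ∧ b ∈ TA16_E x m n q ∩ Tᶜ} = {q | q ∈ Q ∧ b ∈ TA16_E x m n q} := by
          ext q
          exact ⟨fun h => ⟨h.1, h.2.1⟩, fun h => ⟨h.1, h.2, hb⟩⟩
        rw [e2, hcard]
        by_cases h3 : 3 ≤ nW (col b) x m n
        · have e4 : nW (col b) x m n = 3 := by omega
          have hbF : b ∈ F := h3
          have e5 : {j | j ∈ ({()} : Finset Unit) ∧ b ∈ F} = {()} := by
            ext j
            simp [hbF]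
          rw [e4, e5, Set.ncard_singleton]
          decide
        · rw [Nat.choose_eq_zero_of_lt (by omega)]
          exact Nat.zero_le _
  -- step 3
  have s3 : ∀ q ∈ Q, Pr (TA16_E x m n q ∩ T) ≤ d * Pr (TA16_E x m n q) := by
    intro q hq
    have hq3 : q.card = 3 := (Finset.mem_powersetCard.1 hq).2
    have hsub : TA16_E x m n q ∩ T ⊆ TA16_E x m n q ∩ TA16_G x m n q :=
      fun b hb => ⟨hb.1, TA16_fourth hq3 hb.1 hb.2⟩
    have hle : Pr (TA16_E x m n q ∩ T) ≤ Pr (TA16_E x m n q ∩ TA16_G x m n q) := by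
      unfold Pr
      exact measureReal_mono hsub (measure_ne_top _ _)
    have hdis : BDis (TA16_R x m n q) (TA16_H x m n q) := fun v hv w hw => hw.2 v hv
    rw [N3_indep hi hz (TA16_E_loc x m n q) (TA16_G_loc x m n q) hdis] at hle
    have hG : Pr (TA16_G x m n q) ≤ d := by
      refine le_trans ?_ hd
      unfold Pr
      refine measureReal_mono ?_ (measure_ne_top _ _)
      rintro b ⟨u, hu, u', hu', hc⟩
      exact ⟨u, u', le_of_eq hu, le_of_eq hu'.symm, Conn.mono (Set.subset_univ _) hc⟩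
    have hE0 : 0 ≤ Pr (TA16_E x m n q) := by unfold Pr; exact measureReal_nonneg
    calc _ ≤ _ := hle
      _ ≤ Pr (TA16_E x m n q) * d := mul_le_mul_of_nonneg_left hG hE0
      _ = _ := mul_comm _ _
  -- conclusion
  have s4 : ∀ q, Pr (TA16_E x m n q) =
      Pr (TA16_E x m n q ∩ T) + Pr (TA16_E x m n q ∩ Tᶜ) := by
    intro q
    unfold Pr
    rw [← Set.sdiff_eq]
    exact (measureReal_inter_add_sdiff mT (measure_ne_top _ _)).symm
  set S := ∑ q ∈ Q, Pr (TA16_E x m n q ∩ T) with hS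
  have s5 : S ≤ d * (S + Pr F) := by
    calc S ≤ ∑ q ∈ Q, d * Pr (TA16_E x m n q) := Finset.sum_le_sum fun q hq => s3 q hq
      _ = d * ∑ q ∈ Q, Pr (TA16_E x m n q) := by rw [Finset.mul_sum]
      _ = d * (S + ∑ q ∈ Q, Pr (TA16_E x m n q ∩ Tᶜ)) := by
          rw [hS, ← Finset.sum_add_distrib]
          congr 1
          exact Finset.sum_congr rfl fun q _ => s4 q
      _ ≤ _ := mul_le_mul_of_nonneg_left (by linarith) d0
  have hF0 : 0 ≤ Pr F := by unfold Pr; exact measureReal_nonneg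
  have hS0 : 0 ≤ S := Finset.sum_nonneg fun q _ => by unfold Pr; exact measureReal_nonneg
  have h6 : S ≤ 2 * d * Pr F := by nlinarith
  exact s1.trans h6

end TP.TA
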