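import Pool.Agent.helper98.SP.SpecGA

/-! # Project sp: DUAL from GD2, GD3. -/

set_option autoImplicit false

namespace TP

open DP MeasureTheory

theorem DUAL (h2 : GD2_stmt) (h3 : GD3_stmt) : DUAL_stmt := by
  intro c x m n hx hm hmn hg
  constructor
  · exact h2 c x m n hx hm hmn hg
  · intro h
    by_contra hc
    exact h (h3 c x m n hx hm hmn hg.1 hc)

end TP
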